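import Mathlib

set_option autoImplicit false

open MeasureTheory Set Filter Topology Laplacian

namespace Pool.Agent.H775R2.Rad

/-- The Euclidean plane. -/
abbrev Plane : Type := EuclideanSpace ℝ (Fin 2)

/-- `f(t) = e^{2t} p(e^t)`. -/
noncomputable def fOf (p : ℝ → ℝ) (t : ℝ) : ℝ := Real.exp (2 * t) * p (Real.exp t)

/-- `g(u) = q(e^u)`. -/
noncomputable def gOf (q : ℝ → ℝ) (u : ℝ) : ℝ := q (Real.exp u)

/-- `G_0(u) = ∫_{-∞}^u g`. -/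
noncomputable def G0 (g : ℝ → ℝ) (u : ℝ) : ℝ := ∫ s in Iic u, g s

/-- `M_0 = inf {M > 0 : ∫_0^∞ f(t) g(-M t) dt < ∞}`. -/
noncomputable def M0 (f g : ℝ → ℝ) : ℝ :=
  sInf {M : ℝ | 0 < M ∧ IntegrableOn (fun t => f t * g (-(M * t))) (Ioi 0)}

/-- The hypotheses (H1)-(H8) on `f` and `g`. -/
structure Hyp (f g : ℝ → ℝ) : Prop where
  /-- (H1) -/
  f_C1 : ContDiff ℝ 1 f
  /-- (H1) -/
  g_C1 : ContDiff ℝ 1 g
  /-- (H1) -/
  int_tf : IntegrableOn (fun t => t * f t) (Iio 0)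
  /-- (H1) -/
  g_bdd : ∃ B : ℝ, ∀ u, |g u| + |deriv g u| ≤ B
  /-- (H2) -/
  f_pos : ∀ t, 0 < f t
  /-- (H2) -/
  f_top : Tendsto f atTop atTop
  /-- (H2) -/
  g_zero : g 0 = 0
  /-- (H2) -/
  g_pos : ∀ u, u < 0 → 0 < g u
  /-- (H3) -/
  f_mono : ∀ t, 0 ≤ deriv f t
  /-- (H4) -/
  h4 : ∃ M : ℝ, 0 < M ∧ (∀ u, u < -M → 0 < deriv g u) ∧
    IntegrableOn (fun t => f t * g (-(M * t))) (Ioi 0)
  /-- (H5) -/
  h5_div : ¬ IntegrableOn (fun t => f t * g (-(M0 f g * t))) (Ioi 0)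
  /-- (H5) -/
  h5_inf : ∀ c : ℝ, 0 < c → ∃ ε : ℝ, 0 < ε ∧ ∀ t, 0 < t → ε ≤ f (t - c) / f t
  /-- (H6): `G_0` is well defined -/
  g_int : ∀ u, IntegrableOn g (Iic u)
  /-- (H6) and (H7) -/
  h67 : ∃ f₁ g₁ : ℝ, Tendsto (fun t => deriv f t / f t) atTop (𝓝 f₁) ∧
    Tendsto (fun u => G0 g u / g u) atBot (𝓝 g₁) ∧
    (∀ t, f₁ ≤ deriv f t / f t) ∧ (∀ u, u < 0 → g₁ ≤ G0 g u / g u)
  /-- (H8) -/
  h8 : ∃ δ : ℝ, 0 < δ ∧ ∀ u ∈ Icc (-δ) 0, deriv g u ≤ 0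

/-- `u` solves `Δ u + p(|x|) q(e^u) = 4 π N δ` on the plane in the sense of distributions, is
locally integrable, and is smooth and solves the equation pointwise away from the origin. -/
structure IsSolution (N : ℝ) (p q : ℝ → ℝ) (u : Plane → ℝ) : Prop where
  smooth : ContDiffOn ℝ ((⊤ : ℕ∞) : WithTop ℕ∞) u {x | x ≠ 0}
  pointwise : ∀ x, x ≠ 0 → Δ u x + p ‖x‖ * q (Real.exp (u x)) = 0
  locallyIntegrable : LocallyIntegrable u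
  source_locallyIntegrable : LocallyIntegrable fun x => p ‖x‖ * q (Real.exp (u x))
  distributional : ∀ φ : Plane → ℝ, ContDiff ℝ ((⊤ : ℕ∞) : WithTop ℕ∞) φ → HasCompactSupport φ →
    (∫ x, u x * Δ φ x) + (∫ x, p ‖x‖ * q (Real.exp (u x)) * φ x) = 4 * Real.pi * N * φ 0

/-- `u < 0` away from the origin. -/
def IsNegative (u : Plane → ℝ) : Prop := ∀ x, x ≠ 0 → u x < 0

/-- `u(x)` depends only on `|x|` (for `x ≠ 0`). -/
def IsRadial (u : Plane → ℝ) : Prop := ∀ x y : Plane, x ≠ 0 → y ≠ 0 → ‖x‖ = ‖y‖ → u x = u y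

end Pool.Agent.H775R2.Rad
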