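import Pool.Agent.H775R2.Rad.HypOf

set_option autoImplicit false

open MeasureTheory Set Filter Topology

namespace Pool.Agent.H775R2.Rad

/-- comparison of `g` with its primitive -/
lemma le_G0 {g : ℝ → ℝ} (hg : ContDiff ℝ 1 g) {C A : ℝ} (hA : ∀ u, u < -A → deriv g u = g u)
    (hb : ∀ u, |g u| ≤ C * Real.exp u) (hd : ∀ u, |deriv g u| ≤ C * Real.exp u) {u : ℝ}
    (h : ∀ s, s ≤ u → deriv g s ≤ g s) : g u ≤ G0 g u := by
  have he : IntegrableOn (fun s => C * Real.exp s) (Iic u) :=
    (integrableOn_exp_Iic u).const_mul C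
  have hgi : IntegrableOn g (Iic u) :=
    Integrable.mono' he hg.continuous.aestronglyMeasurable
      (Eventually.of_forall fun s => by simpa using hb s)
  have hdi : IntegrableOn (deriv g) (Iic u) :=
    Integrable.mono' he (hg.continuous_deriv (by norm_num)).aestronglyMeasurable
      (Eventually.of_forall fun s => by simpa using hd s)
  have hlim : Tendsto g atBot (𝓝 0) := by
    have h1 : Tendsto (fun s => C * Real.exp s) atBot (𝓝 0) := by
      simpa using Real.tendsto_exp_atBot.const_mul C
    exact squeeze_zero_norm (fun s => by simpa using hb s) h1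
  have h1 := integral_Iic_of_hasDerivAt_of_tendsto' (a := u) (f := g) (f' := deriv g)
    (fun x _ => ((hg.differentiable (by norm_num)) x).hasDerivAt) hdi hlim
  rw [sub_zero] at h1
  rw [← h1]
  exact setIntegral_mono_on hdi hgi measurableSet_Iic fun s hs => h s hs

/-- cutoff: `1` for `u ≤ -2`, `0` for `u ≥ -1` -/
noncomputable def cut (u : ℝ) : ℝ := Real.smoothTransition (-1 - u)

/-- the nonlinearity: `e^u` for `u ≤ -2` and `(e^{-u} - 1)/100` for `u ≥ -1` -/
noncomputable def gA (u : ℝ) : ℝ := cut u * Real.exp u + (1 - cut u) * ((Real.exp (-u) - 1) / 100)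

lemma cut_contDiff : ContDiff ℝ 1 cut := by
  have h : ContDiff ℝ ((1 : ℕ∞) : WithTop ℕ∞) Real.smoothTransition :=
    Real.smoothTransition.contDiff (n := 1)
  exact h.comp (contDiff_const.sub contDiff_id)

lemma cut_one {u : ℝ} (h : u ≤ -2) : cut u = 1 := Real.smoothTransition.one_of_one_le (by linarith)
lemma cut_zero {u : ℝ} (h : -1 ≤ u) : cut u = 0 := Real.smoothTransition.zero_of_nonpos (by linarith)
lemma cut_nonneg (u : ℝ) : 0 ≤ cut u := Real.smoothTransition.nonneg _
lemma cut_le (u : ℝ) : cut u ≤ 1 := Real.smoothTransition.le_one _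

lemma cut_antitone : Antitone cut := fun a b h => Real.smoothTransition.monotone (by linarith)

lemma cut_deriv (u : ℝ) : deriv cut u ≤ 0 := cut_antitone.deriv_nonpos

lemma gA_contDiff : ContDiff ℝ 1 gA := by
  have := cut_contDiff
  unfold gA
  fun_prop

lemma gA_left {u : ℝ} (h : u ≤ -2) : gA u = Real.exp u := by simp [gA, cut_one h]
lemma gA_right {u : ℝ} (h : -1 ≤ u) : gA u = (Real.exp (-u) - 1) / 100 := by simp [gA, cut_zero h]

lemma gA_deriv (u : ℝ) : deriv gA u = cut u * Real.exp u + (1 - cut u) * (-Real.exp (-u) / 100) +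
    deriv cut u * (Real.exp u - (Real.exp (-u) - 1) / 100) := by
  have hc : HasDerivAt cut (deriv cut u) u :=
    ((cut_contDiff.differentiable (by norm_num)) u).hasDerivAt
  have he : HasDerivAt (fun u : ℝ => Real.exp (-u)) (-Real.exp (-u)) u := by
    have := (hasDerivAt_neg u).exp
    simpa using this
  have h1 := (hc.mul (Real.hasDerivAt_exp u)).add ((hc.const_sub 1).mul ((he.sub_const 1).div_const 100))
  have h2 : HasDerivAt gA _ u := h1
  rw [h2.deriv]
  ring

lemma key_exp {u : ℝ} (h : -2 ≤ u) : (Real.exp (-u) - 1) / 100 ≤ Real.exp u := by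
  have h1 : Real.exp (-u) ≤ Real.exp 2 := Real.exp_le_exp.2 (by linarith)
  have h2 : Real.exp (-2) ≤ Real.exp u := Real.exp_le_exp.2 h
  have h3 : Real.exp 1 < 2.7182818286 := Real.exp_one_lt_d9
  have h3' : 0 < Real.exp 1 := Real.exp_pos 1
  have h4 : Real.exp 2 = Real.exp 1 * Real.exp 1 := by rw [← Real.exp_add]; norm_num
  have h5 : Real.exp (-2) * Real.exp 2 = 1 := by rw [← Real.exp_add]; norm_num
  have h6 : Real.exp 2 < 8 := by rw [h4]; nlinarith
  have h7 : 1 / 8 < Real.exp (-2) := by
    have : 0 < Real.exp 2 := Real.exp_pos 2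
    have : Real.exp (-2) = 1 / Real.exp 2 := by field_simp; linarith
    rw [this]
    exact one_div_lt_one_div_of_lt (by assumption) h6
  linarith

lemma gA_deriv_left {u : ℝ} (h : u < -2) : deriv gA u = Real.exp u := by
  have : gA =ᶠ[𝓝 u] Real.exp := by
    filter_upwards [Iio_mem_nhds h] with v hv
    exact gA_left (le_of_lt hv)
  rw [this.deriv_eq]
  exact (Real.hasDerivAt_exp u).deriv

lemma gA_deriv_right {u : ℝ} (h : -1 < u) : deriv gA u = -Real.exp (-u) / 100 := by
  have h0 : gA =ᶠ[𝓝 u] fun v => (Real.exp (-v) - 1) / 100 := by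
    filter_upwards [Ioi_mem_nhds h] with v hv
    exact gA_right (le_of_lt hv)
  rw [h0.deriv_eq]
  have he : HasDerivAt (fun u : ℝ => Real.exp (-u)) (-Real.exp (-u)) u := by
    have := (hasDerivAt_neg u).exp
    simpa using this
  exact ((he.sub_const 1).div_const 100).deriv

lemma gA_bdd : ∃ B : ℝ, ∀ u, |gA u| + |deriv gA u| ≤ B := by
  have hc : Continuous fun u => |gA u| + |deriv gA u| :=
    gA_contDiff.continuous.abs.add (gA_contDiff.continuous_deriv (by norm_num)).abs
  obtain ⟨B, hB⟩ := (isCompact_Icc (a := (-2 : ℝ)) (b := -1)).bddAbove_image hc.continuousOn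
  refine ⟨max B 2, fun u => ?_⟩
  rcases lt_or_ge u (-2) with h | h
  · rw [gA_left h.le, gA_deriv_left h, abs_of_pos (Real.exp_pos u)]
    have : Real.exp u ≤ 1 := Real.exp_le_one_iff.2 (by linarith)
    exact le_max_of_le_right (by linarith)
  · rcases le_or_gt u (-1) with h' | h'
    · exact le_max_of_le_left (hB ⟨u, ⟨h, h'⟩, rfl⟩)
    · rw [gA_right h'.le, gA_deriv_right h']
      refine le_max_of_le_right ?_
      have h1 : Real.exp (-u) < Real.exp 1 := Real.exp_lt_exp.2 (by linarith)
      have h2 := Real.exp_one_lt_d9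
      have h3 := Real.exp_pos (-u)
      have h4 : |(Real.exp (-u) - 1) / 100| ≤ 1 := by
        rw [abs_le]; constructor <;> linarith
      have h5 : |-Real.exp (-u) / 100| ≤ 1 := by
        rw [abs_le]; constructor <;> linarith
      linarith

/-- an exponential bound from boundedness -/
lemma exp_bound {h : ℝ → ℝ} {B : ℝ} (hB : ∀ u, |h u| ≤ B) (h2 : ∀ u, u < -2 → h u = Real.exp u) :
    ∀ u, |h u| ≤ (1 + B * Real.exp 2) * Real.exp u := by
  intro u
  have hB0 : 0 ≤ B := (abs_nonneg _).trans (hB 0)
  have he := Real.exp_pos u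
  rcases lt_or_ge u (-2) with h' | h'
  · rw [h2 u h', abs_of_pos he]
    have : 0 ≤ B * Real.exp 2 * Real.exp u := by positivity
    linarith
  · have h3 : 1 ≤ Real.exp 2 * Real.exp u := by
      rw [← Real.exp_add]
      exact Real.one_le_exp (by linarith)
    have := hB u
    nlinarith

theorem goodG_gA : GoodG gA 2 := by
  obtain ⟨B, hB⟩ := gA_bdd
  have hB1 : ∀ u, |gA u| ≤ B := fun u => by
    have := hB u
    have := abs_nonneg (deriv gA u)
    linarith
  have hB2 : ∀ u, |deriv gA u| ≤ B := fun u => by
    have := hB u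
    have := abs_nonneg (gA u)
    linarith
  have e1 := exp_bound hB1 (fun u h => gA_left h.le)
  have e2 := exp_bound hB2 (fun u h => gA_deriv_left h)
  have hpos : ∀ u, u < 0 → 0 < gA u := by
    intro u hu
    have h1 : 0 < (Real.exp (-u) - 1) / 100 := by
      have : 1 < Real.exp (-u) := Real.one_lt_exp_iff.2 (by linarith)
      linarith
    have h2 := Real.exp_pos u
    have h3 := cut_nonneg u
    have h4 := cut_le u
    unfold gA
    rcases h3.eq_or_lt with h | h
    · rw [← h]; linarith
    · have : 0 ≤ (1 - cut u) * ((Real.exp (-u) - 1) / 100) := mul_nonneg (by linarith) h1.le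
      have : 0 < cut u * Real.exp u := by positivity
      linarith
  have hint : ∀ u, IntegrableOn gA (Iic u) := fun u =>
    Integrable.mono' ((integrableOn_exp_Iic u).const_mul (1 + B * Real.exp 2))
      gA_contDiff.continuous.aestronglyMeasurable
      (Eventually.of_forall fun s => by simpa using e1 s)
  refine ⟨gA_contDiff, ⟨B, hB⟩, ?_, hpos, by norm_num, ?_, ?_, ?_, hint, ?_, ?_, 1 / 2, by norm_num, ?_⟩
  · rw [gA_right (by norm_num)]; simp
  · intro u hu
    rw [gA_deriv_left (by linarith)]
    exact Real.exp_pos u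
  · intro u hu
    rw [gA_left (by linarith)]
    have := Real.exp_pos u
    linarith
  · intro u hu
    rcases lt_or_ge u (-2) with h | h
    · rw [gA_left h.le]
    · have h1 := key_exp h
      have h3 := cut_nonneg u
      have h4 := cut_le u
      unfold gA
      nlinarith
  · have : (fun u => G0 gA u / gA u) =ᶠ[atBot] fun _ => 1 := by
      filter_upwards [eventually_le_atBot (-2 : ℝ)] with u hu
      have h1 : G0 gA u = Real.exp u := by
        unfold G0
        rw [setIntegral_congr_fun measurableSet_Iic (g := Real.exp) fun s hs =>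
          gA_left (le_trans hs hu), integral_exp_Iic]
      rw [h1, gA_left hu, div_self (Real.exp_pos u).ne']
    exact tendsto_const_nhds.congr' this.symm
  · intro u hu
    rw [one_le_div (hpos u hu)]
    refine le_G0 (C := 1 + B * Real.exp 2) (A := 2) gA_contDiff (fun s hs => ?_) e1 e2 ?_
    · rw [gA_deriv_left hs, gA_left hs.le]
    · intro s hs
      rcases lt_or_ge s (-2) with h | h
      · rw [gA_deriv_left h, gA_left h.le]
      · rw [gA_deriv]
        have h1 := key_exp h
        have h2 := cut_deriv s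
        have h3 := cut_le s
        have h4 : 0 ≤ (Real.exp (-s) - 1) / 100 := by
          have : 1 ≤ Real.exp (-s) := Real.one_le_exp (by linarith)
          linarith
        have h5 := Real.exp_pos (-s)
        have h6 : deriv cut s * (Real.exp s - (Real.exp (-s) - 1) / 100) ≤ 0 :=
          mul_nonpos_of_nonpos_of_nonneg h2 (by linarith)
        have h7 : (1 - cut s) * (-Real.exp (-s) / 100) ≤ 0 :=
          mul_nonpos_of_nonneg_of_nonpos (by linarith) (by linarith)
        have h8 : 0 ≤ (1 - cut s) * ((Real.exp (-s) - 1) / 100) := mul_nonneg (by linarith) h4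
        unfold gA
        linarith
  · intro u hu
    rw [gA_deriv_right (by linarith [hu.1])]
    have := Real.exp_pos (-u)
    linarith

end Pool.Agent.H775R2.Rad
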