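import Pool.Agent.H775R2.Rad.Defs

set_option autoImplicit false

open MeasureTheory Set Filter Topology

namespace Pool.Agent.H775R2.Rad

/-- what we need of `g` when `f` is an exponential -/
structure GoodG (g : ℝ → ℝ) (A : ℝ) : Prop where
  C1 : ContDiff ℝ 1 g
  bdd : ∃ B : ℝ, ∀ u, |g u| + |deriv g u| ≤ B
  zero : g 0 = 0
  pos : ∀ u, u < 0 → 0 < g u
  A_pos : 0 < A
  inc : ∀ u, u < -A → 0 < deriv g u
  low : ∀ u, u ≤ -A → (1 / 2) * Real.exp u ≤ g u
  up : ∀ u, u ≤ 0 → g u ≤ Real.exp u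
  int : ∀ u, IntegrableOn g (Iic u)
  lim : Tendsto (fun u => G0 g u / g u) atBot (𝓝 1)
  ge : ∀ u, u < 0 → 1 ≤ G0 g u / g u
  h8 : ∃ δ : ℝ, 0 < δ ∧ ∀ u ∈ Icc (-δ) 0, deriv g u ≤ 0

lemma int_of_gt {g : ℝ → ℝ} {A : ℝ} (hg : GoodG g A) {c κ M : ℝ} (hc : 0 < c) (hM : κ < M)
    (hM0 : 0 < M) :
    IntegrableOn (fun t => (c * Real.exp (κ * t)) * g (-(M * t))) (Ioi 0) := by
  have h1 : IntegrableOn (fun t : ℝ => c * Real.exp (-(M - κ) * t)) (Ioi 0) := by
    have := integrableOn_exp_mul_Ioi (a := -(M - κ)) (by linarith) 0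
    exact this.const_mul c
  have hcont : Continuous fun t => (c * Real.exp (κ * t)) * g (-(M * t)) := by
    have := hg.C1.continuous
    fun_prop
  refine Integrable.mono' h1 hcont.aestronglyMeasurable ?_
  filter_upwards [ae_restrict_mem measurableSet_Ioi] with t ht
  have ht0 : 0 < t := ht
  have h2 : 0 < g (-(M * t)) := hg.pos _ (by nlinarith)
  have h3 : g (-(M * t)) ≤ Real.exp (-(M * t)) := hg.up _ (by nlinarith)
  rw [Real.norm_of_nonneg (by positivity)]
  calc c * Real.exp (κ * t) * g (-(M * t)) ≤ c * Real.exp (κ * t) * Real.exp (-(M * t)) := by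
        gcongr
    _ = c * Real.exp (-(M - κ) * t) := by
        rw [mul_assoc, ← Real.exp_add]; congr 2; ring

lemma not_int_of_le {g : ℝ → ℝ} {A : ℝ} (hg : GoodG g A) {c κ M : ℝ} (hc : 0 < c) (hM : M ≤ κ)
    (hM0 : 0 < M) :
    ¬ IntegrableOn (fun t => (c * Real.exp (κ * t)) * g (-(M * t))) (Ioi 0) := by
  intro h
  have hA := hg.A_pos
  have h1 : IntegrableOn (fun t => (c * Real.exp (κ * t)) * g (-(M * t))) (Ioi (A / M)) :=
    h.mono_set (Ioi_subset_Ioi (by positivity))
  have h2 : IntegrableOn (fun _ : ℝ => c / 2) (Ioi (A / M)) := by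
    refine Integrable.mono' h1 aestronglyMeasurable_const ?_
    filter_upwards [ae_restrict_mem measurableSet_Ioi] with t ht
    have ht' : A / M < t := ht
    have ht0 : 0 < t := lt_trans (by positivity) ht'
    rw [div_lt_iff₀ hM0] at ht'
    have h3 := hg.low (-(M * t)) (by linarith)
    rw [Real.norm_of_nonneg (by positivity)]
    calc c / 2 = c * (1 / 2 * 1) := by ring
      _ ≤ c * (1 / 2 * (Real.exp (κ * t) * Real.exp (-(M * t)))) := by
          rw [← Real.exp_add]
          have : 0 ≤ κ * t + -(M * t) := by nlinarith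
          have := Real.one_le_exp this
          gcongr
      _ = c * Real.exp (κ * t) * (1 / 2 * Real.exp (-(M * t))) := by ring
      _ ≤ _ := by gcongr
  rw [integrableOn_const_iff] at h2
  rcases h2 with h2 | h2
  · rw [enorm_eq_zero] at h2
    linarith
  · simp at h2

lemma M0_eq {g : ℝ → ℝ} {A : ℝ} (hg : GoodG g A) {c κ : ℝ} (hc : 0 < c) (hκ : 0 < κ) :
    M0 (fun t => c * Real.exp (κ * t)) g = κ := by
  have : {M : ℝ | 0 < M ∧ IntegrableOn (fun t => (c * Real.exp (κ * t)) * g (-(M * t))) (Ioi 0)}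
      = Ioi κ := by
    ext M
    constructor
    · rintro ⟨h1, h2⟩
      by_contra h
      exact not_int_of_le hg hc (not_lt.1 h) h1 h2
    · intro h
      exact ⟨hκ.trans h, int_of_gt hg hc h (hκ.trans h)⟩
  unfold M0
  rw [this, csInf_Ioi]

theorem hyp_of {g : ℝ → ℝ} {A : ℝ} (hg : GoodG g A) {c κ : ℝ} (hc : 0 < c) (hκ : 0 < κ) :
    Hyp (fun t => c * Real.exp (κ * t)) g := by
  have hd : ∀ t, HasDerivAt (fun t => c * Real.exp (κ * t)) (c * (Real.exp (κ * t) * κ)) t := by
    intro t
    have h1 : HasDerivAt (fun t : ℝ => κ * t) κ t := by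
      simpa using (hasDerivAt_id t).const_mul κ
    exact (h1.exp).const_mul c
  have hder : ∀ t, deriv (fun t => c * Real.exp (κ * t)) t = c * (Real.exp (κ * t) * κ) :=
    fun t => (hd t).deriv
  have hF1 : ∀ t, deriv (fun t => c * Real.exp (κ * t)) t / (c * Real.exp (κ * t)) = κ := by
    intro t
    rw [hder]
    have := Real.exp_pos (κ * t)
    field_simp
  refine ⟨by fun_prop, hg.C1, ?_, hg.bdd, fun t => by positivity, ?_, hg.zero, hg.pos, ?_, ?_, ?_,
    ?_, hg.int, ⟨κ, 1, ?_, hg.lim, fun t => (hF1 t).ge, hg.ge⟩, hg.h8⟩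
  · -- integrability of `t f(t)` near `-∞`
    have h1 : IntegrableOn (fun t : ℝ => (2 * c / κ) * Real.exp ((κ / 2) * t)) (Iio 0) := by
      have h0 : IntegrableOn (fun t : ℝ => Real.exp ((κ / 2) * t)) (Iic 0) :=
        integrableOn_exp_mul_Iic (by positivity) 0
      exact (h0.mono_set Iio_subset_Iic_self).const_mul _
    refine Integrable.mono' h1 (by fun_prop) ?_
    filter_upwards [ae_restrict_mem measurableSet_Iio] with t ht
    have ht0 : t < 0 := ht
    rw [Real.norm_eq_abs, abs_mul, abs_of_neg ht0, abs_of_pos (by positivity)]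
    have h2 : -t ≤ (2 / κ) * Real.exp (-(κ / 2) * t) := by
      have h3 := Real.add_one_le_exp (-(κ / 2) * t)
      have h4 : -t = (2 / κ) * (-(κ / 2) * t) := by field_simp
      rw [h4]
      apply mul_le_mul_of_nonneg_left (by linarith) (by positivity)
    calc -t * (c * Real.exp (κ * t)) ≤ (2 / κ) * Real.exp (-(κ / 2) * t) * (c * Real.exp (κ * t)) :=
          by gcongr
      _ = (2 * c / κ) * (Real.exp (-(κ / 2) * t) * Real.exp (κ * t)) := by ring
      _ = _ := by rw [← Real.exp_add]; congr 2; ring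
  · have h1 : Tendsto (fun t : ℝ => κ * t) atTop atTop :=
      tendsto_id.const_mul_atTop hκ
    exact (Real.tendsto_exp_atTop.comp h1).const_mul_atTop hc
  · intro t
    rw [hder]; positivity
  · refine ⟨max κ A + 1, ?_, ?_, ?_⟩
    · have := le_max_left κ A; linarith
    · intro u hu
      exact hg.inc u (by have := le_max_right κ A; linarith)
    · exact int_of_gt hg hc (by have := le_max_left κ A; linarith)
        (by have := le_max_left κ A; linarith)
  · rw [M0_eq hg hc hκ]
    exact not_int_of_le hg hc le_rfl hκ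
  · intro c' hc'
    refine ⟨Real.exp (-(κ * c')), Real.exp_pos _, fun t _ => ?_⟩
    rw [le_div_iff₀ (by positivity)]
    rw [mul_comm, mul_assoc, ← Real.exp_add]
    apply le_of_eq
    congr 2
    ring
  · simp only [hF1]
    exact tendsto_const_nhds

end Pool.Agent.H775R2.Rad
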