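import Pool.Agent.H775R2.Rad.GoodG
import Pool.Agent.H314.CS.Holo
import Pool.Agent.H314.CS.Dist

set_option autoImplicit false

open MeasureTheory Set Filter Topology Laplacian InnerProductSpace
open Pool.Agent.H314.Dir Pool.Agent.H314.CS

namespace Pool.Agent.H775R2.Rad

theorem laplacian_eq_lap (f : Eu 2 → ℝ) (x : Eu 2) : Δ f x = lap f x := by
  rw [laplacian_eq_iteratedFDeriv_orthonormalBasis f (EuclideanSpace.basisFun (Fin 2) ℝ)]
  unfold lap
  refine Finset.sum_congr rfl fun i _ => ?_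
  congr 1
  funext j
  fin_cases j <;> simp

theorem logn_smooth {n : WithTop ℕ∞} {x : Eu 2} (hx : x ≠ 0) :
    ContDiffAt ℝ n (fun y : Eu 2 => Real.log ‖y‖) x :=
  (contDiffAt_id.norm ℝ hx).log (norm_ne_zero_iff.2 hx)

theorem lap_logn {x : Eu 2} (hx : x ≠ 0) :
    lap (fun y : Eu 2 => Real.log ‖y‖) x = 0 := by
  have hpos : 0 < ‖x - 0‖ ^ 2 := by
    have := norm_pos_iff.2 hx
    rw [sub_zero]
    positivity
  have e : (fun y : Eu 2 => Real.log ‖y‖) =
      fun y : Eu 2 => (fun r : ℝ => 1 / 2 * Real.log r) (‖y - 0‖ ^ 2) := by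
    funext y
    simp only [Real.log_pow, sub_zero]
    push_cast
    ring
  have hC := logn_smooth (n := 2) hx
  rw [e] at hC ⊢
  rw [lap_radial (g := fun r : ℝ => 1 / 2 * Real.log r) (g' := fun r => 1 / 2 * r⁻¹)
    (g'' := fun r => 1 / 2 * (-(r ^ 2)⁻¹)) 0 x ?_ ?_ hC]
  · push_cast
    field_simp
    ring
  · filter_upwards [lt_mem_nhds hpos] with r hr
    exact (Real.hasDerivAt_log hr.ne').const_mul _
  · exact (hasDerivAt_inv hpos.ne').const_mul _

lemma normSq_cz (x : Eu 2) : Complex.normSq (cz x) = ‖x‖ ^ 2 := by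
  rw [EuclideanSpace.real_norm_sq_eq, Fin.sum_univ_two, Complex.normSq_apply]
  simp [cz]
  ring

lemma norm_cz (x : Eu 2) : ‖cz x‖ = ‖x‖ := by
  have h := normSq_cz x
  rw [Complex.normSq_eq_norm_sq] at h
  exact (sq_eq_sq₀ (norm_nonneg _) (norm_nonneg _)).1 h

lemma cz_contDiff {n : WithTop ℕ∞} : ContDiff ℝ n (fun x : Eu 2 => cz x) := by
  have h0 : ∀ i : Fin 2, ContDiff ℝ n (fun x : Eu 2 => x i) := fun i =>
    (EuclideanSpace.proj (𝕜 := ℝ) i : Eu 2 →L[ℝ] ℝ).contDiff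
  have e : (fun x : Eu 2 => cz x) = fun x : Eu 2 => Complex.ofRealCLM (x 0) + Complex.ofRealCLM (x 1) * Complex.I := by
    funext x
    apply Complex.ext <;> simp [cz]
  rw [e]
  exact (Complex.ofRealCLM.contDiff.comp (h0 0)).add
    ((Complex.ofRealCLM.contDiff.comp (h0 1)).mul contDiff_const)

lemma normSq_contDiff {n : WithTop ℕ∞} {G : Eu 2 → ℂ} (hG : ContDiff ℝ n G) :
    ContDiff ℝ n fun x => Complex.normSq (G x) := by
  have hre : ContDiff ℝ n (fun x : Eu 2 => (G x).re) := Complex.reCLM.contDiff.comp hG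
  have him : ContDiff ℝ n (fun x : Eu 2 => (G x).im) := Complex.imCLM.contDiff.comp hG
  have e : (fun x => Complex.normSq (G x)) = fun x : Eu 2 => (G x).re * (G x).re + (G x).im * (G x).im := by
    funext x
    rw [Complex.normSq_apply]
  rw [e]
  exact (hre.mul hre).add (him.mul him)

/-- `m = ⌊N⌋ + 2` -/
noncomputable def mm (N : ℝ) : ℕ := ⌊N⌋₊ + 2

/-- the exponent: `p(r) = r^{2σ}` -/
noncomputable def sg (N : ℝ) : ℝ := mm N - N - 1

lemma mm_ge (N : ℝ) : 2 ≤ mm N := by unfold mm; omega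

lemma sg_pos (N : ℝ) : 0 < sg N := by
  unfold sg mm
  have := Nat.lt_floor_add_one N
  push_cast
  linarith

lemma N_lt (N : ℝ) : N + 1 < mm N := by
  have := sg_pos N
  unfold sg at this
  linarith

/-- the scaling parameter -/
noncomputable def lm (m : ℕ) : ℝ := 1 / (100 * m)

lemma lm_pos {m : ℕ} (hm : 2 ≤ m) : 0 < lm m := by
  unfold lm
  have : (0 : ℝ) < m := by exact_mod_cast (by omega : 0 < m)
  positivity

lemma lm_le {m : ℕ} (hm : 2 ≤ m) : lm m ≤ 1 := by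
  unfold lm
  have : (2 : ℝ) ≤ m := by exact_mod_cast hm
  rw [div_le_one (by positivity)]
  linarith

/-- the holomorphic function `F(z) = (λ z)^m + 1` -/
noncomputable def FF (m : ℕ) (z : ℂ) : ℂ := ((lm m : ℂ) * z) ^ m + 1

noncomputable def FF' (m : ℕ) (z : ℂ) : ℂ := (m : ℂ) * ((lm m : ℂ) * z) ^ (m - 1) * (lm m : ℂ)

noncomputable def FF'' (m : ℕ) (z : ℂ) : ℂ :=
  (m : ℂ) * (((m - 1 : ℕ) : ℂ) * ((lm m : ℂ) * z) ^ (m - 1 - 1) * (lm m : ℂ)) * (lm m : ℂ)

lemma FF_deriv (m : ℕ) (z : ℂ) : HasDerivAt (FF m) (FF' m z) z := by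
  have h0 : HasDerivAt (fun z : ℂ => (lm m : ℂ) * z) (lm m : ℂ) z := by
    simpa using (hasDerivAt_id z).const_mul (lm m : ℂ)
  exact (h0.pow m).add_const 1

lemma FF'_deriv (m : ℕ) (z : ℂ) : HasDerivAt (FF' m) (FF'' m z) z := by
  have h0 : HasDerivAt (fun z : ℂ => (lm m : ℂ) * z) (lm m : ℂ) z := by
    simpa using (hasDerivAt_id z).const_mul (lm m : ℂ)
  exact ((h0.pow (m - 1)).const_mul (m : ℂ)).mul_const _

/-- `|F|^2` -/
noncomputable def QQ (m : ℕ) (x : Eu 2) : ℝ := Complex.normSq (FF m (cz x))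

lemma QQ_nonneg (m : ℕ) (x : Eu 2) : 0 ≤ QQ m x := Complex.normSq_nonneg _

lemma QQ_contDiff {n : WithTop ℕ∞} (m : ℕ) : ContDiff ℝ n (QQ m) := by
  refine normSq_contDiff ?_
  unfold FF
  exact ((contDiff_const.mul cz_contDiff).pow m).add contDiff_const

/-- smooth part of the solution -/
noncomputable def WW (m : ℕ) (x : Eu 2) : ℝ :=
  Real.log (8 * m ^ 2 * lm m ^ (2 * m)) - 2 * Real.log (1 + QQ m x)

lemma WW_contDiff {n : WithTop ℕ∞} (m : ℕ) : ContDiff ℝ n (WW m) := by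
  unfold WW
  refine contDiff_const.sub (contDiff_const.mul ?_)
  rw [contDiff_iff_contDiffAt]
  intro x
  refine (contDiff_const.add (QQ_contDiff m)).contDiffAt.log ?_
  have := QQ_nonneg m x
  linarith

/-- the source term -/
noncomputable def SS (m : ℕ) (x : Eu 2) : ℝ :=
  8 * m ^ 2 * lm m ^ (2 * m) * ‖x‖ ^ (2 * (m - 1)) / (1 + QQ m x) ^ 2

lemma normSq_FF' {m : ℕ} (hm : 2 ≤ m) (x : Eu 2) :
    Complex.normSq (FF' m (cz x)) = m ^ 2 * lm m ^ (2 * m) * ‖x‖ ^ (2 * (m - 1)) := by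
  unfold FF'
  rw [map_mul, map_mul, map_pow, map_mul, normSq_cz, Complex.normSq_natCast, Complex.normSq_ofReal,
    mul_pow, ← pow_mul]
  obtain ⟨k, rfl⟩ : ∃ k, m = k + 1 := ⟨m - 1, by omega⟩
  simp only [Nat.add_sub_cancel]
  have : lm (k + 1) ^ (2 * (k + 1)) = (lm (k + 1) * lm (k + 1)) ^ k * (lm (k + 1) * lm (k + 1)) := by
    ring
  rw [this]
  ring

lemma lap_WW {m : ℕ} (hm : 2 ≤ m) (x : Eu 2) : lap (WW m) x = -SS m x := by
  have hq : 0 < 1 + QQ m x := by have := QQ_nonneg m x; linarith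
  have h := lap_holo (FF_deriv m) (FF'_deriv m)
    (g := fun r => Real.log (8 * m ^ 2 * lm m ^ (2 * m)) - 2 * Real.log (1 + r))
    (g' := fun r => -2 * (1 + r)⁻¹) (g'' := fun r => 2 * ((1 + r) ^ 2)⁻¹) x ?_ ?_ ?_
  · have e : WW m = fun y : Eu 2 => (fun r => Real.log (8 * m ^ 2 * lm m ^ (2 * m)) -
        2 * Real.log (1 + r)) (Complex.normSq (FF m (cz y))) := rfl
    rw [e, h, normSq_FF' hm]
    change 4 * (↑m ^ 2 * lm m ^ (2 * m) * ‖x‖ ^ (2 * (m - 1))) *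
      (-2 * (1 + QQ m x)⁻¹ + QQ m x * (2 * ((1 + QQ m x) ^ 2)⁻¹)) = _
    unfold SS
    field_simp
    ring
  · have : ∀ᶠ r in 𝓝 (Complex.normSq (FF m (cz x))), 0 < 1 + r := by
      refine (continuous_const.add continuous_id).continuousAt.eventually (lt_mem_nhds ?_)
      exact hq
    filter_upwards [this] with r hr
    have h1 : HasDerivAt (fun r : ℝ => 1 + r) 1 r := (hasDerivAt_id r).const_add 1
    have h2 := ((h1.log hr.ne').const_mul 2).const_sub (Real.log (8 * m ^ 2 * lm m ^ (2 * m)))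
    refine h2.congr_deriv ?_
    field_simp
  · have h1 : HasDerivAt (fun r : ℝ => 1 + r) 1 (Complex.normSq (FF m (cz x))) :=
      (hasDerivAt_id _).const_add 1
    have h2 := (h1.inv hq.ne').const_mul (-2)
    refine h2.congr_deriv ?_
    field_simp
  · exact (WW_contDiff m).contDiffAt

/-- the solution -/
noncomputable def uu (N : ℝ) (x : Eu 2) : ℝ := 2 * N * Real.log ‖x‖ + WW (mm N) x

lemma QQ_ge (m : ℕ) (x : Eu 2) : (1 + (lm m * ‖x‖) ^ (2 * m)) / 4 ≤ 1 + QQ m x := by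
  set y : ℂ := ((lm m : ℂ) * cz x) ^ m with hy
  have h1 : Complex.normSq y = (lm m * ‖x‖) ^ (2 * m) := by
    rw [hy, map_pow, map_mul, normSq_cz, Complex.normSq_ofReal, pow_mul]
    ring
  have h2 : QQ m x = Complex.normSq (y + 1) := rfl
  rw [← h1, h2, Complex.normSq_apply, Complex.normSq_apply]
  simp only [Complex.add_re, Complex.add_im, Complex.one_re, Complex.one_im]
  nlinarith [sq_nonneg (3 * y.re + 4), sq_nonneg y.im]

lemma exp_uu {N : ℝ} {x : Eu 2} (hx : x ≠ 0) :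
    Real.exp (uu N x) = 8 * (mm N) ^ 2 * lm (mm N) ^ (2 * mm N) * ‖x‖ ^ (2 * N) /
      (1 + QQ (mm N) x) ^ 2 := by
  have hm := mm_ge N
  have hm' : (0 : ℝ) < mm N := by exact_mod_cast (by omega : 0 < mm N)
  have hl := lm_pos hm
  have hq : 0 < 1 + QQ (mm N) x := by have := QQ_nonneg (mm N) x; linarith
  have hn : 0 < ‖x‖ := norm_pos_iff.2 hx
  unfold uu WW
  rw [Real.exp_add, Real.exp_sub, Real.exp_log (by positivity), Real.rpow_def_of_pos hn]
  have h1 : Real.exp (2 * Real.log (1 + QQ (mm N) x)) = (1 + QQ (mm N) x) ^ 2 := by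
    rw [two_mul, Real.exp_add, Real.exp_log hq]; ring
  rw [h1]
  have h2 : 2 * N * Real.log ‖x‖ = Real.log ‖x‖ * (2 * N) := by ring
  rw [h2]
  ring

lemma uu_le {N : ℝ} (hN : 0 ≤ N) {x : Eu 2} (hx : x ≠ 0) : uu N x ≤ -2 := by
  have hm := mm_ge N
  have hm' : (2 : ℝ) ≤ mm N := by exact_mod_cast hm
  have hl := lm_pos hm
  have hl1 := lm_le hm
  have hn : 0 < ‖x‖ := norm_pos_iff.2 hx
  set m := mm N with hmdef
  set l := lm m with hldef
  set y := l * ‖x‖ with hy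
  have hy0 : 0 < y := by positivity
  -- `y^{2N} ≤ 1 + y^{2m}`
  have h1 : y ^ (2 * N) ≤ 1 + y ^ (2 * m) := by
    rcases le_or_gt y 1 with h | h
    · have h2 : y ^ (2 * N) ≤ 1 := Real.rpow_le_one hy0.le h (by positivity)
      have h3 : 0 ≤ y ^ (2 * m) := by positivity
      linarith
    · have h2 : y ^ (2 * N) ≤ y ^ ((2 * m : ℕ) : ℝ) := by
        apply Real.rpow_le_rpow_of_exponent_le h.le
        have := N_lt N
        push_cast
        linarith
      rw [Real.rpow_natCast] at h2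
      linarith
  have h2 : ‖x‖ ^ (2 * N) = y ^ (2 * N) * l ^ (-(2 * N)) := by
    have : ‖x‖ = y * l⁻¹ := by rw [hy]; field_simp
    rw [this, Real.mul_rpow hy0.le (by positivity), Real.inv_rpow hl.le, ← Real.rpow_neg hl.le]
  have h3 : l ^ (2 * m) * l ^ (-(2 * N)) ≤ l ^ 2 := by
    rw [← Real.rpow_natCast, ← Real.rpow_natCast, ← Real.rpow_add hl]
    apply Real.rpow_le_rpow_of_exponent_ge hl hl1
    have := N_lt N
    push_cast
    linarith
  have hQ := QQ_ge m x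
  have hq : 0 < 1 + QQ m x := by have := QQ_nonneg m x; linarith
  have h4 : Real.exp (uu N x) ≤ Real.exp (-2) := by
    rw [exp_uu hx]
    have h5 : 8 * (m : ℝ) ^ 2 * l ^ (2 * m) * ‖x‖ ^ (2 * N) ≤
        8 * (m : ℝ) ^ 2 * l ^ 2 * (1 + y ^ (2 * m)) := by
      rw [h2]
      have h6 : 0 < y ^ (2 * N) := Real.rpow_pos_of_pos hy0 _
      calc 8 * (m : ℝ) ^ 2 * l ^ (2 * m) * (y ^ (2 * N) * l ^ (-(2 * N)))
          = 8 * (m : ℝ) ^ 2 * (l ^ (2 * m) * l ^ (-(2 * N))) * y ^ (2 * N) := by ring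
        _ ≤ 8 * (m : ℝ) ^ 2 * l ^ 2 * (1 + y ^ (2 * m)) := by gcongr
    have h7 : (1 + y ^ (2 * m)) ≤ 16 * (1 + QQ m x) ^ 2 := by
      have h8 : 0 < y ^ (2 * m) := by positivity
      nlinarith
    have h9 : 8 * (m : ℝ) ^ 2 * l ^ 2 = 8 / 10000 := by
      rw [hldef, lm]
      field_simp
      norm_num
    have h10 : 128 / 10000 ≤ Real.exp (-2) := by
      have h3 : Real.exp 1 < 2.7182818286 := Real.exp_one_lt_d9
      have h3' : 0 < Real.exp 1 := Real.exp_pos 1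
      have h4 : Real.exp 2 = Real.exp 1 * Real.exp 1 := by rw [← Real.exp_add]; norm_num
      have h5 : Real.exp (-2) * Real.exp 2 = 1 := by rw [← Real.exp_add]; norm_num
      have h6 : Real.exp 2 < 8 := by rw [h4]; nlinarith
      have h7 : 0 < Real.exp (-2) := Real.exp_pos _
      nlinarith
    rw [div_le_iff₀ (by positivity)]
    calc 8 * (m : ℝ) ^ 2 * l ^ (2 * m) * ‖x‖ ^ (2 * N) ≤ 8 * (m : ℝ) ^ 2 * l ^ 2 * (1 + y ^ (2 * m)) := h5
      _ = 8 / 10000 * (1 + y ^ (2 * m)) := by rw [h9]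
      _ ≤ 8 / 10000 * (16 * (1 + QQ m x) ^ 2) := by gcongr
      _ = 128 / 10000 * (1 + QQ m x) ^ 2 := by ring
      _ ≤ _ := by gcongr
  exact Real.exp_le_exp.1 h4

/-- the functions `p` and `q` of the equation -/
noncomputable def pp (N : ℝ) (r : ℝ) : ℝ := r ^ (2 * sg N)
noncomputable def qq (s : ℝ) : ℝ := gA (Real.log s)

lemma source_eq {N : ℝ} (hN : 0 ≤ N) (x : Eu 2) :
    pp N ‖x‖ * qq (Real.exp (uu N x)) = SS (mm N) x := by
  have hm := mm_ge N
  have hs := sg_pos N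
  rcases eq_or_ne x 0 with rfl | hx
  · have h1 : (2 * sg N) ≠ 0 := by positivity
    have h2 : 2 * (mm N - 1) ≠ 0 := by omega
    unfold pp SS
    rw [norm_zero, Real.zero_rpow h1, zero_pow h2]
    simp
  · unfold pp qq
    rw [Real.log_exp, gA_left (uu_le hN hx), exp_uu hx]
    have hn : 0 < ‖x‖ := norm_pos_iff.2 hx
    unfold SS
    have h3 : ‖x‖ ^ (2 * sg N) * ‖x‖ ^ (2 * N) = ‖x‖ ^ (2 * (mm N - 1)) := by
      rw [← Real.rpow_add hn, ← Real.rpow_natCast]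
      congr 1
      unfold sg
      push_cast [Nat.cast_sub (by omega : 1 ≤ mm N)]
      ring
    rw [← h3]
    ring

lemma SS_cont (m : ℕ) : Continuous (SS m) := by
  unfold SS
  have h1 : Continuous (QQ m) := (QQ_contDiff (n := 0) m).continuous
  refine Continuous.div (by fun_prop) (by fun_prop) fun x => ?_
  have := QQ_nonneg m x
  positivity

lemma SS_integrable {m : ℕ} (hm : 2 ≤ m) : Integrable (SS m) := by
  have h0 : Integrable (fun x : Eu 2 => (1 + ‖x‖) ^ (-(3 : ℝ))) :=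
    integrable_one_add_norm (by rw [finrank_euclideanSpace_fin]; norm_num)
  have hl := lm_pos hm
  have hl1 := lm_le hm
  set l := lm m with hldef
  set C : ℝ := 8 * m ^ 2 * l ^ (2 * m) * (16 * 8 * (l⁻¹) ^ (2 * (m - 1)) * (l⁻¹) ^ 3) with hC
  refine Integrable.mono' (h0.const_mul C) (SS_cont m).aestronglyMeasurable
    (Eventually.of_forall fun x => ?_)
  set y := l * ‖x‖ with hy
  have hy0 : 0 ≤ y := by positivity
  have hxy : ‖x‖ = l⁻¹ * y := by rw [hy]; field_simp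
  have hQ := QQ_ge m x
  have hq : 0 < 1 + QQ m x := by have := QQ_nonneg m x; linarith
  have hS0 : 0 ≤ SS m x := by unfold SS; positivity
  rw [Real.norm_of_nonneg hS0]
  have e1 : (1 + ‖x‖) ^ (-(3 : ℝ)) = 1 / (1 + ‖x‖) ^ 3 := by
    rw [Real.rpow_neg (by positivity), one_div]
    norm_cast
  rw [e1]
  have h3 : (1 + ‖x‖) ≤ l⁻¹ * (1 + y) := by
    have : 1 ≤ l⁻¹ := (one_le_inv₀ hl).2 hl1
    rw [hxy]
    nlinarith
  have h4 : y ^ (2 * (m - 1)) * (1 + y) ^ 3 ≤ 8 * (1 + y ^ (2 * m)) ^ 2 := by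
    rcases le_or_gt y 1 with h | h
    · have h5 : y ^ (2 * (m - 1)) ≤ 1 := pow_le_one₀ hy0 h
      have h6 : (1 + y) ^ 3 ≤ 8 := by
        calc (1 + y) ^ 3 ≤ (1 + 1) ^ 3 := by gcongr
          _ = 8 := by norm_num
      have h7 : 0 ≤ y ^ (2 * m) := by positivity
      calc y ^ (2 * (m - 1)) * (1 + y) ^ 3 ≤ 1 * 8 := by gcongr
        _ ≤ _ := by nlinarith
    · have h6 : (1 + y) ^ 3 ≤ 8 * y ^ 3 := by
        calc (1 + y) ^ 3 ≤ (2 * y) ^ 3 := by gcongr; linarith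
          _ = 8 * y ^ 3 := by ring
      calc y ^ (2 * (m - 1)) * (1 + y) ^ 3 ≤ y ^ (2 * (m - 1)) * (8 * y ^ 3) := by gcongr
        _ = 8 * y ^ (2 * (m - 1) + 3) := by rw [pow_add]; ring
        _ ≤ 8 * y ^ (2 * m + 2 * m) :=
            mul_le_mul_of_nonneg_left (pow_le_pow_right₀ h.le (by omega)) (by norm_num)
        _ = 8 * (y ^ (2 * m)) ^ 2 := by rw [pow_add]; ring
        _ ≤ _ := by
            have h7 : 0 ≤ y ^ (2 * m) := by positivity
            gcongr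
            linarith
  unfold SS
  rw [div_le_iff₀ (by positivity)]
  have h8 : ‖x‖ ^ (2 * (m - 1)) * (1 + ‖x‖) ^ 3 ≤
      (16 * 8 * (l⁻¹) ^ (2 * (m - 1)) * (l⁻¹) ^ 3) * (1 + QQ m x) ^ 2 := by
    calc ‖x‖ ^ (2 * (m - 1)) * (1 + ‖x‖) ^ 3
        ≤ (l⁻¹ * y) ^ (2 * (m - 1)) * (l⁻¹ * (1 + y)) ^ 3 := by
          rw [← hxy]
          gcongr
      _ = (l⁻¹) ^ (2 * (m - 1)) * (l⁻¹) ^ 3 * (y ^ (2 * (m - 1)) * (1 + y) ^ 3) := by
          rw [mul_pow, mul_pow]; ring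
      _ ≤ (l⁻¹) ^ (2 * (m - 1)) * (l⁻¹) ^ 3 * (8 * (1 + y ^ (2 * m)) ^ 2) := by gcongr
      _ ≤ (l⁻¹) ^ (2 * (m - 1)) * (l⁻¹) ^ 3 * (8 * (4 * (1 + QQ m x)) ^ 2) := by
          have : 1 + y ^ (2 * m) ≤ 4 * (1 + QQ m x) := by linarith
          gcongr
      _ = _ := by ring
  have h9 : 0 < (1 + ‖x‖) ^ 3 := by positivity
  calc 8 * (m : ℝ) ^ 2 * l ^ (2 * m) * ‖x‖ ^ (2 * (m - 1))
      = 8 * (m : ℝ) ^ 2 * l ^ (2 * m) * (‖x‖ ^ (2 * (m - 1)) * (1 + ‖x‖) ^ 3) / (1 + ‖x‖) ^ 3 := by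
        field_simp
    _ ≤ 8 * (m : ℝ) ^ 2 * l ^ (2 * m) * ((16 * 8 * (l⁻¹) ^ (2 * (m - 1)) * (l⁻¹) ^ 3) *
        (1 + QQ m x) ^ 2) / (1 + ‖x‖) ^ 3 := by gcongr
    _ = C * (1 / (1 + ‖x‖) ^ 3) * (1 + QQ m x) ^ 2 := by
        rw [hC]; ring

theorem uu_isSolution {N : ℝ} (hN : 0 ≤ N) : IsSolution N (pp N) qq (uu N) := by
  have hm := mm_ge N
  have hsrc : (fun x : Plane => pp N ‖x‖ * qq (Real.exp (uu N x))) = SS (mm N) :=
    funext fun x => source_eq hN x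
  refine ⟨?_, ?_, ?_, ?_, ?_⟩
  · intro x hx
    exact ((contDiffAt_const.mul (logn_smooth hx)).add (WW_contDiff _).contDiffAt).contDiffWithinAt
  · intro x hx
    rw [source_eq hN x, laplacian_eq_lap]
    have h1 : ContDiffAt ℝ 2 (fun y : Eu 2 => 2 * N * Real.log ‖y‖) x :=
      contDiffAt_const.mul (logn_smooth hx)
    have h2 : lap (uu N) x = lap (fun y : Eu 2 => 2 * N * Real.log ‖y‖) x + lap (WW (mm N)) x :=
      lap_add h1 (WW_contDiff _).contDiffAt
    rw [h2, lap_const_mul _ (logn_smooth hx), lap_logn hx, lap_WW hm]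
    ring
  · have h1 : LocallyIntegrable (fun x : Plane => 2 * N * Real.log ‖x‖) := by
      have := (locInt_log (0 : Plane)).smul (2 * N)
      simp only [sub_zero] at this
      exact this
    exact h1.add (WW_contDiff (n := 0) _).continuous.locallyIntegrable
  · rw [hsrc]
    exact (SS_cont _).locallyIntegrable
  · intro φ hφ hc
    have hφ2 : ContDiff ℝ 2 φ := by exact_mod_cast contDiff_infty.1 hφ 2
    have h1 := dist_identity (fun _ : Fin 1 => (0 : Plane)) (fun _ => 2 * N) (WW (mm N)) φ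
      (WW_contDiff _) hφ2 hc
    simp only [Finset.univ_unique, Finset.sum_singleton, sub_zero] at h1
    have h2 : ∫ x, uu N x * Δ φ x = (∫ x, Δ (WW (mm N)) x * φ x) + 2 * Real.pi * (2 * N * φ 0) := h1
    have h3 : ∫ x, Δ (WW (mm N)) x * φ x = -∫ x, SS (mm N) x * φ x := by
      rw [← integral_neg]
      refine integral_congr_ae (Eventually.of_forall fun x => ?_)
      simp only
      rw [laplacian_eq_lap, lap_WW hm]
      ring
    have h4 : ∫ x, pp N ‖x‖ * qq (Real.exp (uu N x)) * φ x = ∫ x, SS (mm N) x * φ x := by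
      refine integral_congr_ae (Eventually.of_forall fun x => ?_)
      simp only
      rw [source_eq hN x]
    rw [h2, h3, h4]
    ring

theorem uu_not_radial (N : ℝ) : ¬ IsRadial (uu N) := by
  intro h
  have hm := mm_ge N
  set m := mm N with hmdef
  have hm' : (0 : ℝ) < m := by exact_mod_cast (by omega : 0 < m)
  have hl := lm_pos hm
  set l := lm m with hldef
  have hlc : (l : ℂ) ≠ 0 := by exact_mod_cast hl.ne'
  -- two points of modulus `1/λ`
  set a : ℂ := (l : ℂ)⁻¹ with ha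
  set b : ℂ := (l : ℂ)⁻¹ * Complex.exp ((Real.pi / m : ℝ) * Complex.I) with hb
  have hcz : ∀ c : ℂ, cz (!₂[c.re, c.im] : Eu 2) = c := by
    intro c
    apply Complex.ext <;> simp [cz]
  have hna : ‖(!₂[a.re, a.im] : Eu 2)‖ = l⁻¹ := by
    rw [← norm_cz, hcz, ha, norm_inv, Complex.norm_real, Real.norm_of_nonneg hl.le]
  have hnb : ‖(!₂[b.re, b.im] : Eu 2)‖ = l⁻¹ := by
    rw [← norm_cz, hcz, hb, norm_mul, norm_inv, Complex.norm_real, Real.norm_of_nonneg hl.le,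
      Complex.norm_exp_ofReal_mul_I, mul_one]
  have hl' : l⁻¹ ≠ 0 := inv_ne_zero hl.ne'
  have hxa : (!₂[a.re, a.im] : Eu 2) ≠ 0 := by
    rw [← norm_ne_zero_iff, hna]; exact hl'
  have hxb : (!₂[b.re, b.im] : Eu 2) ≠ 0 := by
    rw [← norm_ne_zero_iff, hnb]; exact hl'
  have key := h _ _ hxa hxb (hna.trans hnb.symm)
  have hQa : QQ m (!₂[a.re, a.im] : Eu 2) = 4 := by
    unfold QQ FF
    rw [hcz, ← hldef, ha, mul_inv_cancel₀ hlc, one_pow]
    norm_num [Complex.normSq_apply]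
  have hQb : QQ m (!₂[b.re, b.im] : Eu 2) = 0 := by
    unfold QQ FF
    rw [hcz, ← hldef, hb, ← mul_assoc, mul_inv_cancel₀ hlc, one_mul, ← Complex.exp_nat_mul]
    have : (m : ℂ) * (((Real.pi / m : ℝ) : ℂ) * Complex.I) = Real.pi * Complex.I := by
      have : (m : ℂ) ≠ 0 := by exact_mod_cast hm'.ne'
      push_cast
      field_simp
    rw [this, Complex.exp_pi_mul_I]
    simp
  unfold uu WW at key
  rw [hna, hnb, ← hmdef, hQa, hQb] at key
  have h5 : Real.log (1 + 4) = 0 := by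
    have h7 := add_left_cancel key
    have h8 : Real.log (1 + 4) = Real.log (1 + 0) := by linarith
    rw [h8]
    simp
  have h6 : 0 < Real.log (1 + 4) := Real.log_pos (by norm_num)
  linarith

end Pool.Agent.H775R2.Rad
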