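import Pool.Agent.H775R2.Rad.Sol

set_option autoImplicit false

open MeasureTheory Set Filter Topology Laplacian InnerProductSpace
open Pool.Agent.H314.Dir Pool.Agent.H314.CS

namespace Pool.Agent.H775R2.Rad

/-- cutoff on the positive axis: `1` for `u ≤ 0`, `0` for `u ≥ 1` -/
noncomputable def cutB (u : ℝ) : ℝ := 1 - Real.smoothTransition u

/-- the Chern-Simons nonlinearity, cut off for `u > 0` -/
noncomputable def gB (u : ℝ) : ℝ := cutB u * (Real.exp u * (1 - Real.exp u))

lemma gB_contDiff : ContDiff ℝ 1 gB := by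
  have h : ContDiff ℝ ((1 : ℕ∞) : WithTop ℕ∞) Real.smoothTransition :=
    Real.smoothTransition.contDiff (n := 1)
  have h' : ContDiff ℝ 1 cutB := contDiff_const.sub h
  unfold gB
  fun_prop

lemma gB_left {u : ℝ} (h : u ≤ 0) : gB u = Real.exp u * (1 - Real.exp u) := by
  simp [gB, cutB, Real.smoothTransition.zero_of_nonpos h]

lemma gB_right {u : ℝ} (h : 1 ≤ u) : gB u = 0 := by
  simp [gB, cutB, Real.smoothTransition.one_of_one_le h]

lemma poly_deriv (u : ℝ) : HasDerivAt (fun u : ℝ => Real.exp u * (1 - Real.exp u))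
    (Real.exp u * (1 - 2 * Real.exp u)) u := by
  have := (Real.hasDerivAt_exp u).mul ((Real.hasDerivAt_exp u).const_sub 1)
  refine this.congr_deriv ?_
  ring

lemma gB_deriv_left {u : ℝ} (h : u < 0) : deriv gB u = Real.exp u * (1 - 2 * Real.exp u) := by
  have h0 : gB =ᶠ[𝓝 u] fun u => Real.exp u * (1 - Real.exp u) := by
    filter_upwards [Iio_mem_nhds h] with v hv
    exact gB_left (le_of_lt hv)
  rw [h0.deriv_eq]
  exact (poly_deriv u).deriv

lemma gB_deriv_zero : deriv gB 0 = -1 := by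
  have hc : Continuous (deriv gB) := gB_contDiff.continuous_deriv (by norm_num)
  have h1 : Tendsto (deriv gB) (𝓝[<] 0) (𝓝 (deriv gB 0)) := hc.continuousAt.tendsto.mono_left nhdsWithin_le_nhds
  have h2 : Tendsto (fun u => Real.exp u * (1 - 2 * Real.exp u)) (𝓝[<] 0) (𝓝 (-1)) := by
    have : Continuous fun u => Real.exp u * (1 - 2 * Real.exp u) := by fun_prop
    have h3 := (this.tendsto 0).mono_left (nhdsWithin_le_nhds (s := Iio (0 : ℝ)))
    have h4 : Real.exp 0 * (1 - 2 * Real.exp 0) = -1 := by simp; norm_num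
    rw [h4] at h3
    exact h3
  have h3 : Tendsto (deriv gB) (𝓝[<] 0) (𝓝 (-1)) := by
    refine h2.congr' ?_
    filter_upwards [self_mem_nhdsWithin] with u hu
    exact (gB_deriv_left hu).symm
  exact tendsto_nhds_unique h1 h3

lemma gB_deriv_right {u : ℝ} (h : 1 < u) : deriv gB u = 0 := by
  have h0 : gB =ᶠ[𝓝 u] fun _ => 0 := by
    filter_upwards [Ioi_mem_nhds h] with v hv
    exact gB_right (le_of_lt hv)
  rw [h0.deriv_eq]
  simp

lemma gB_bdd : ∃ B : ℝ, ∀ u, |gB u| + |deriv gB u| ≤ B := by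
  have hc : Continuous fun u => |gB u| + |deriv gB u| :=
    gB_contDiff.continuous.abs.add (gB_contDiff.continuous_deriv (by norm_num)).abs
  obtain ⟨B, hB⟩ := (isCompact_Icc (a := (0 : ℝ)) (b := 1)).bddAbove_image hc.continuousOn
  refine ⟨max B 4, fun u => ?_⟩
  rcases lt_or_ge u 0 with h | h
  · rw [gB_left h.le, gB_deriv_left h]
    have h1 : Real.exp u ≤ 1 := Real.exp_le_one_iff.2 h.le
    have h2 := Real.exp_pos u
    have h3 : |Real.exp u * (1 - Real.exp u)| ≤ 1 := by
      rw [abs_le]; constructor <;> nlinarith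
    have h4 : |Real.exp u * (1 - 2 * Real.exp u)| ≤ 3 := by
      rw [abs_le]; constructor <;> nlinarith
    exact le_max_of_le_right (by linarith)
  · rcases le_or_gt u 1 with h' | h'
    · exact le_max_of_le_left (hB ⟨u, ⟨h, h'⟩, rfl⟩)
    · rw [gB_right h'.le, gB_deriv_right h']
      exact le_max_of_le_right (by simp)

lemma gB_int (u : ℝ) : IntegrableOn gB (Iic u) := by
  obtain ⟨B, hB⟩ := gB_bdd
  have hB1 : ∀ u, |gB u| ≤ B := fun u => by
    have := hB u
    have := abs_nonneg (deriv gB u)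
    linarith
  have hB0 : 0 ≤ B := (abs_nonneg _).trans (hB1 0)
  refine Integrable.mono' ((integrableOn_exp_Iic u).const_mul (1 + B))
    gB_contDiff.continuous.aestronglyMeasurable (Eventually.of_forall fun s => ?_)
  rw [Real.norm_eq_abs]
  have he := Real.exp_pos s
  rcases le_or_gt s 0 with h | h
  · rw [gB_left h]
    have h1 : Real.exp s ≤ 1 := Real.exp_le_one_iff.2 h
    rw [abs_of_nonneg (by nlinarith)]
    nlinarith
  · have h1 : 1 ≤ Real.exp s := Real.one_le_exp h.le
    have := hB1 s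
    nlinarith

lemma G0_gB {u : ℝ} (hu : u ≤ 0) : G0 gB u = Real.exp u * (1 - Real.exp u / 2) := by
  unfold G0
  rw [setIntegral_congr_fun measurableSet_Iic (g := fun s => Real.exp s - Real.exp s * Real.exp s)
    fun s hs => by
      simp only
      rw [gB_left (le_trans hs hu)]; ring]
  have hlim : Tendsto (fun s : ℝ => Real.exp s * (1 - Real.exp s / 2)) atBot (𝓝 0) := by
    have h1 := Real.tendsto_exp_atBot
    have h2 := h1.mul ((h1.div_const 2).const_sub 1)
    simpa using h2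
  have hint : IntegrableOn (fun s => Real.exp s - Real.exp s * Real.exp s) (Iic u) := by
    refine (gB_int u).congr_fun (fun s hs => ?_) measurableSet_Iic
    rw [gB_left (le_trans hs hu)]; ring
  have := integral_Iic_of_hasDerivAt_of_tendsto' (a := u)
    (f := fun s : ℝ => Real.exp s * (1 - Real.exp s / 2))
    (f' := fun s => Real.exp s - Real.exp s * Real.exp s) (fun x _ => ?_) hint hlim
  · rw [this, sub_zero]
  · have h1 := (Real.hasDerivAt_exp x).mul (((Real.hasDerivAt_exp x).div_const 2).const_sub 1)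
    refine h1.congr_deriv ?_
    ring

lemma ratio_gB {u : ℝ} (hu : u < 0) :
    G0 gB u / gB u = (1 - Real.exp u / 2) / (1 - Real.exp u) := by
  rw [G0_gB hu.le, gB_left hu.le, mul_div_mul_left _ _ (Real.exp_pos u).ne']

lemma strict_gB {u : ℝ} (hu : u < 0) : 1 < G0 gB u / gB u := by
  rw [ratio_gB hu]
  have h1 : Real.exp u < 1 := (by simpa using Real.exp_lt_exp.2 hu)
  have h2 := Real.exp_pos u
  rw [one_lt_div (by linarith)]
  linarith

lemma lim_gB : Tendsto (fun u => G0 gB u / gB u) atBot (𝓝 1) := by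
  have h1 := Real.tendsto_exp_atBot
  have h2 : Tendsto (fun u : ℝ => (1 - Real.exp u / 2) / (1 - Real.exp u)) atBot
      (𝓝 ((1 - 0 / 2) / (1 - 0))) :=
    ((h1.div_const 2).const_sub 1).div (h1.const_sub 1) (by norm_num)
  have h3 : ((1 : ℝ) - 0 / 2) / (1 - 0) = 1 := by norm_num
  rw [h3] at h2
  refine h2.congr' ?_
  filter_upwards [eventually_lt_atBot (0 : ℝ)] with u hu
  exact (ratio_gB hu).symm

theorem goodG_gB : GoodG gB 1 := by
  have h8 : Real.exp (-1) < 1 / 2 := by
    have h1 := Real.exp_one_gt_d9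
    have h2 : Real.exp (-1) * Real.exp 1 = 1 := by rw [← Real.exp_add]; norm_num
    have h3 := Real.exp_pos (-1)
    nlinarith
  refine ⟨gB_contDiff, gB_bdd, ?_, ?_, one_pos, ?_, ?_, ?_, gB_int, lim_gB,
    fun u hu => (strict_gB hu).le, 1 / 4, by norm_num, ?_⟩
  · rw [gB_left le_rfl]; simp
  · intro u hu
    rw [gB_left hu.le]
    have h1 : Real.exp u < 1 := (by simpa using Real.exp_lt_exp.2 hu)
    have h2 := Real.exp_pos u
    nlinarith
  · intro u hu
    rw [gB_deriv_left (by linarith)]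
    have h1 : Real.exp u < Real.exp (-1) := Real.exp_lt_exp.2 hu
    have h2 := Real.exp_pos u
    nlinarith
  · intro u hu
    rw [gB_left (by linarith)]
    have h1 : Real.exp u ≤ Real.exp (-1) := Real.exp_le_exp.2 hu
    have h2 := Real.exp_pos u
    nlinarith
  · intro u hu
    rw [gB_left hu]
    have h2 := Real.exp_pos u
    nlinarith
  · intro u hu
    rcases hu.2.eq_or_lt with h | h
    · rw [h, gB_deriv_zero]; norm_num
    · rw [gB_deriv_left h]
      have h2 := Real.exp_pos u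
      have h3 : 1 - 1 / 4 ≤ Real.exp u := by
        have := Real.add_one_le_exp u
        linarith [hu.1]
      nlinarith

/-- the function `q` -/
noncomputable def qB (s : ℝ) : ℝ := gB (Real.log s)

lemma qB_eq {s : ℝ} (h0 : 0 < s) (h1 : s ≤ 1) : qB s = s * (1 - s) := by
  unfold qB
  rw [gB_left (Real.log_nonpos h0.le h1), Real.exp_log h0]

/-- the domain wall `-log(1 + exp(Re z^k))` -/
noncomputable def wall (k : ℕ) (x : Eu 2) : ℝ := -Real.log (1 + Real.exp (((cz x) ^ k).re))

lemma wall_neg (k : ℕ) (x : Eu 2) : wall k x < 0 := by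
  unfold wall
  have := Real.log_pos (show (1 : ℝ) < 1 + Real.exp (((cz x) ^ k).re) by
    have := Real.exp_pos (((cz x) ^ k).re); linarith)
  linarith

lemma re_contDiff {n : WithTop ℕ∞} (k : ℕ) : ContDiff ℝ n fun x : Eu 2 => ((cz x) ^ k).re :=
  Complex.reCLM.contDiff.comp (cz_contDiff.pow k)

lemma wall_contDiff {n : WithTop ℕ∞} (k : ℕ) : ContDiff ℝ n (wall k) := by
  unfold wall
  rw [contDiff_iff_contDiffAt]
  intro x
  refine ((contDiff_const.add (re_contDiff k).exp).contDiffAt.log ?_).neg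
  have := Real.exp_pos (((cz x) ^ k).re)
  linarith

/-- `exp(z^k / 2)`, with squared modulus `exp(Re z^k)` -/
noncomputable def EE (k : ℕ) (z : ℂ) : ℂ := Complex.exp (z ^ k / 2)
noncomputable def EE' (k : ℕ) (z : ℂ) : ℂ := Complex.exp (z ^ k / 2) * (k * z ^ (k - 1) / 2)
noncomputable def EE'' (k : ℕ) (z : ℂ) : ℂ :=
  Complex.exp (z ^ k / 2) * (k * z ^ (k - 1) / 2) * (k * z ^ (k - 1) / 2) +
    Complex.exp (z ^ k / 2) * (k * ((k - 1 : ℕ) * z ^ (k - 1 - 1)) / 2)

lemma EE_deriv (k : ℕ) (z : ℂ) : HasDerivAt (EE k) (EE' k z) z :=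
  ((hasDerivAt_pow k z).div_const 2).cexp

lemma EE'_deriv (k : ℕ) (z : ℂ) : HasDerivAt (EE' k) (EE'' k z) z :=
  (EE_deriv k z).mul (((hasDerivAt_pow (k - 1) z).const_mul (k : ℂ)).div_const 2)

lemma normSq_EE (k : ℕ) (z : ℂ) : Complex.normSq (EE k z) = Real.exp ((z ^ k).re) := by
  unfold EE
  rw [Complex.normSq_eq_norm_sq, Complex.norm_exp, ← Real.exp_nat_mul]
  congr 1
  have : (z ^ k / 2).re = (z ^ k).re / 2 := by
    have : z ^ k / 2 = ((1 / 2 : ℝ) : ℂ) * z ^ k := by push_cast; ring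
    rw [this, Complex.re_ofReal_mul]; ring
  rw [this]
  push_cast
  ring

lemma normSq_EE' (k : ℕ) (x : Eu 2) : Complex.normSq (EE' k (cz x)) =
    Real.exp (((cz x) ^ k).re) * (k ^ 2 * ‖x‖ ^ (2 * (k - 1)) / 4) := by
  have h := normSq_EE k (cz x)
  unfold EE at h
  unfold EE'
  rw [map_mul, h, map_div₀, map_mul, map_pow, normSq_cz, Complex.normSq_natCast, ← pow_mul]
  have : Complex.normSq 2 = 4 := by rw [Complex.normSq_ofNat]; norm_num
  rw [this]
  ring

lemma wall_eq (k : ℕ) (x : Eu 2) : wall k x = -Real.log (1 + Complex.normSq (EE k (cz x))) := by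
  unfold wall
  rw [normSq_EE]

lemma lap_wall (k : ℕ) (x : Eu 2) :
    lap (wall k) x = -(k ^ 2 * ‖x‖ ^ (2 * (k - 1)) *
      (Real.exp (((cz x) ^ k).re) / (1 + Real.exp (((cz x) ^ k).re)) ^ 2)) := by
  have hq : 0 < 1 + Complex.normSq (EE k (cz x)) := by
    have := Complex.normSq_nonneg (EE k (cz x)); linarith
  have h := lap_holo (EE_deriv k) (EE'_deriv k)
    (g := fun r => -Real.log (1 + r)) (g' := fun r => -(1 + r)⁻¹)
    (g'' := fun r => ((1 + r) ^ 2)⁻¹) x ?_ ?_ ?_
  · have e : wall k = fun y : Eu 2 => (fun r => -Real.log (1 + r)) (Complex.normSq (EE k (cz y))) :=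
      funext fun y => wall_eq k y
    rw [e, h, normSq_EE', normSq_EE]
    have := Real.exp_pos (((cz x) ^ k).re)
    field_simp
    ring
  · have : ∀ᶠ r in 𝓝 (Complex.normSq (EE k (cz x))), 0 < 1 + r := by
      refine (continuous_const.add continuous_id).continuousAt.eventually (lt_mem_nhds ?_)
      exact hq
    filter_upwards [this] with r hr
    have h1 : HasDerivAt (fun r : ℝ => 1 + r) 1 r := (hasDerivAt_id r).const_add 1
    have h2 := (h1.log hr.ne').neg
    refine h2.congr_deriv ?_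
    field_simp
  · have h1 : HasDerivAt (fun r : ℝ => 1 + r) 1 (Complex.normSq (EE k (cz x))) :=
      (hasDerivAt_id _).const_add 1
    have h2 := (h1.inv hq.ne').neg
    refine h2.congr_deriv ?_
    field_simp
  · have e : (fun y : Eu 2 => (fun r => -Real.log (1 + r)) (Complex.normSq (EE k (cz y)))) = wall k :=
      funext fun y => (wall_eq k y).symm
    rw [e]
    exact (wall_contDiff k).contDiffAt

/-- `p(r) = k^2 r^{2k-2}` -/
noncomputable def pB (k : ℕ) (r : ℝ) : ℝ := k ^ 2 * r ^ (2 * (k - 1))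

lemma source_wall (k : ℕ) (x : Eu 2) :
    pB k ‖x‖ * qB (Real.exp (wall k x)) = -lap (wall k) x := by
  rw [lap_wall, neg_neg, qB_eq (Real.exp_pos _) (Real.exp_le_one_iff.2 (wall_neg k x).le)]
  unfold pB wall
  have h := Real.exp_pos (((cz x) ^ k).re)
  rw [Real.exp_neg, Real.exp_log (by linarith)]
  field_simp
  ring

theorem wall_isSolution (k : ℕ) : IsSolution 0 (pB k) qB (wall k) := by
  have hsc : Continuous (fun x : Plane => pB k ‖x‖ * qB (Real.exp (wall k x))) := by
    have : (fun x : Plane => pB k ‖x‖ * qB (Real.exp (wall k x))) = fun x =>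
      k ^ 2 * ‖x‖ ^ (2 * (k - 1)) *
      (Real.exp (((cz x) ^ k).re) / (1 + Real.exp (((cz x) ^ k).re)) ^ 2) := by
      funext x
      rw [source_wall, lap_wall, neg_neg]
    rw [this]
    have h1 : Continuous fun x : Eu 2 => ((cz x) ^ k).re := (re_contDiff (n := 0) k).continuous
    refine Continuous.mul (by fun_prop) (Continuous.div (by fun_prop) (by fun_prop) fun x => ?_)
    have h := Real.exp_pos (((cz x) ^ k).re)
    positivity
  refine ⟨(wall_contDiff k).contDiffOn, ?_, (wall_contDiff (n := 0) k).continuous.locallyIntegrable,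
    hsc.locallyIntegrable, ?_⟩
  · intro x _
    rw [source_wall, laplacian_eq_lap]
    ring
  · intro φ hφ hc
    have hφ2 : ContDiff ℝ 2 φ := by exact_mod_cast contDiff_infty.1 hφ 2
    have h1 := LL.green (wall_contDiff k) hφ2 hc
    rw [h1, ← integral_add]
    · have : ∀ x : Plane, Δ (wall k) x * φ x + pB k ‖x‖ * qB (Real.exp (wall k x)) * φ x = 0 := by
        intro x
        rw [source_wall, laplacian_eq_lap]
        ring
      simp [this]
    · have e : (fun x : Plane => Δ (wall k) x * φ x) =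
          fun x => -(pB k ‖x‖ * qB (Real.exp (wall k x))) * φ x := by
        funext x
        rw [source_wall, laplacian_eq_lap]
        ring
      rw [e]
      exact (hsc.neg.mul hφ.continuous).integrable_of_hasCompactSupport hc.mul_left
    · exact (hsc.mul hφ.continuous).integrable_of_hasCompactSupport hc.mul_left

theorem wall_not_radial {k : ℕ} (hk : 1 ≤ k) (c : Plane) :
    ∃ x y : Plane, x ≠ 0 ∧ y ≠ 0 ∧ ‖x - c‖ = ‖y - c‖ ∧ wall k x ≠ wall k y := by
  have hcz : ∀ c : ℂ, cz (!₂[c.re, c.im] : Eu 2) = c := by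
    intro c
    apply Complex.ext <;> simp [cz]
  have hk' : (k : ℂ) ≠ 0 := by exact_mod_cast (by omega : k ≠ 0)
  set R : ℝ := ‖c‖ + 1 with hR
  -- on each ray from the origin there is a point at distance `R` from `c`
  have ray : ∀ w : ℂ, ‖w‖ = 1 → ∃ t : ℝ, 0 < t ∧
      ‖(!₂[((t : ℂ) * w).re, ((t : ℂ) * w).im] : Eu 2) - c‖ = R := by
    intro w hw
    have hcont : Continuous fun t : ℝ => ‖(!₂[((t : ℂ) * w).re, ((t : ℂ) * w).im] : Eu 2) - c‖ := by
      have h1 : Continuous fun t : ℝ => (!₂[((t : ℂ) * w).re, ((t : ℂ) * w).im] : Eu 2) := by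
        have : (fun t : ℝ => (!₂[((t : ℂ) * w).re, ((t : ℂ) * w).im] : Eu 2)) =
            fun t : ℝ => t • (!₂[w.re, w.im] : Eu 2) := by
          funext t
          ext i
          fin_cases i <;> simp
        rw [this]
        fun_prop
      exact (h1.sub continuous_const).norm
    have hnt : ∀ t : ℝ, 0 ≤ t → ‖(!₂[((t : ℂ) * w).re, ((t : ℂ) * w).im] : Eu 2)‖ = t := by
      intro t ht
      rw [← norm_cz, hcz, norm_mul, hw, Complex.norm_real, Real.norm_of_nonneg ht, mul_one]
    have h0 : ‖(!₂[(((0 : ℝ) : ℂ) * w).re, (((0 : ℝ) : ℂ) * w).im] : Eu 2) - c‖ ≤ R := by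
      have := norm_sub_le (!₂[(((0 : ℝ) : ℂ) * w).re, (((0 : ℝ) : ℂ) * w).im] : Eu 2) c
      rw [hnt 0 le_rfl] at this
      linarith
    have h1 : R ≤ ‖(!₂[(((R + ‖c‖ : ℝ) : ℂ) * w).re, (((R + ‖c‖ : ℝ) : ℂ) * w).im] : Eu 2) - c‖ := by
      have h2 := norm_sub_norm_le
        (!₂[(((R + ‖c‖ : ℝ) : ℂ) * w).re, (((R + ‖c‖ : ℝ) : ℂ) * w).im] : Eu 2) c
      rw [hnt _ (by positivity)] at h2
      linarith
    obtain ⟨t, ht, hte⟩ := intermediate_value_Icc (show (0 : ℝ) ≤ R + ‖c‖ by positivity)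
      hcont.continuousOn ⟨h0, h1⟩
    refine ⟨t, lt_of_le_of_ne ht.1 ?_, hte⟩
    rintro rfl
    have h3 := norm_sub_le (!₂[(((0 : ℝ) : ℂ) * w).re, (((0 : ℝ) : ℂ) * w).im] : Eu 2) c
    rw [hnt 0 le_rfl] at h3
    simp only at hte
    rw [hte] at h3
    linarith
  obtain ⟨s, hs, hsR⟩ := ray 1 (by simp)
  obtain ⟨t, ht, htR⟩ := ray (Complex.exp ((Real.pi / k : ℝ) * Complex.I))
    (Complex.norm_exp_ofReal_mul_I _)
  have hne : ∀ (r : ℝ) (w : ℂ), 0 < r → ‖w‖ = 1 →
      (!₂[((r : ℂ) * w).re, ((r : ℂ) * w).im] : Eu 2) ≠ 0 := by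
    intro r w hr hw
    rw [← norm_ne_zero_iff, ← norm_cz, hcz, norm_mul, hw, Complex.norm_real,
      Real.norm_of_nonneg hr.le, mul_one]
    exact hr.ne'
  refine ⟨_, _, hne s 1 hs (by simp), hne t _ ht (Complex.norm_exp_ofReal_mul_I _),
    hsR.trans htR.symm, ?_⟩
  intro h
  unfold wall at h
  rw [hcz, hcz] at h
  have e1 : (((s : ℂ) * 1) ^ k).re = s ^ k := by
    rw [mul_one, ← Complex.ofReal_pow, Complex.ofReal_re]
  have e2 : (((t : ℂ) * Complex.exp ((Real.pi / k : ℝ) * Complex.I)) ^ k).re = -t ^ k := by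
    rw [mul_pow, ← Complex.exp_nat_mul]
    have : (k : ℂ) * (((Real.pi / k : ℝ) : ℂ) * Complex.I) = Real.pi * Complex.I := by
      push_cast
      field_simp
    rw [this, Complex.exp_pi_mul_I, ← Complex.ofReal_pow, mul_neg_one, Complex.neg_re,
      Complex.ofReal_re]
  rw [e1, e2] at h
  have h1 : Real.log (1 + Real.exp (-t ^ k)) < Real.log (1 + Real.exp (s ^ k)) := by
    apply Real.log_lt_log (by have := Real.exp_pos (-t ^ k); linarith)
    have h2 : Real.exp (-t ^ k) < Real.exp (s ^ k) := by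
      apply Real.exp_lt_exp.2
      have : 0 < t ^ k := by positivity
      have : 0 < s ^ k := by positivity
      linarith
    linarith
  linarith

end Pool.Agent.H775R2.Rad
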